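import Pool.Agent.Lib.MP_425be5_nt_X.Form

namespace Pool.Agent.Lib.MP_425be5_nt_XR.ClosedForm

open Pool.Agent.Lib.MP_425be5_nt Pool.Agent.Lib.MP_425be5_nt_X

/-- Closed form of the records of `S_n(2ξ)`, and of the values at them, for every irrational `ξ`. -/
theorem result (ξ : ℝ) (hirr : Irrational ξ) (N : ℕ) (v : ℝ) :
    (IsRecord (2 * ξ) N ∧ walk (2 * ξ) N = v) ↔
      (N = 0 ∧ v = 0) ∨ ∃ j b : ℕ, 1 ≤ b ∧ b ≤ mark ξ j ∧
        N = b * den ξ j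
          + ∑ i ∈ (Finset.range j).filter (fun i => i % 2 = j % 2), mark ξ i * den ξ i ∧
        v = (-1) ^ j *
          ((b + ∑ i ∈ (Finset.range j).filter (fun i => i % 2 = j % 2), mark ξ i : ℕ) : ℝ) := by
  have key : ∀ j b : ℕ, b ≤ mark ξ j → walk (2 * ξ) (b * den ξ j
      + ∑ i ∈ (Finset.range j).filter (fun i => i % 2 = j % 2), mark ξ i * den ξ i) = (-1) ^ j *
      ((b + ∑ i ∈ (Finset.range j).filter (fun i => i % 2 = j % 2), mark ξ i : ℕ) : ℝ) := by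
    intro j b hb
    rw [← Bs_eq, ← Hs_eq, Nat.cast_add, add_comm (b : ℝ)]
    exact walk_value hirr j hb
  rw [record_iff hirr]
  simp only [Bs_eq]
  constructor
  · rintro ⟨rfl | ⟨j, b, h1, h2, h3⟩, rfl⟩
    · exact Or.inl ⟨rfl, by simp [walk]⟩
    · exact Or.inr ⟨j, b, h1, h2, h3, by rw [h3]; exact key j b h2⟩
  · rintro (⟨rfl, rfl⟩ | ⟨j, b, h1, h2, h3, h4⟩)
    · exact ⟨Or.inl rfl, by simp [walk]⟩
    · exact ⟨Or.inr ⟨j, b, h1, h2, h3⟩, by rw [h3, h4]; exact key j b h2⟩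

end Pool.Agent.Lib.MP_425be5_nt_XR.ClosedForm
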