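import Pool.Agent.Lib.MP_425be5_nt_X.Lin

namespace Pool.Agent.Lib.MP_425be5_nt_XR.Recurrence

open Pool.Agent.Lib.MP_425be5_nt Pool.Agent.Lib.MP_425be5_nt_X

/-- For every quadratic irrational `x` the increasing sequence of the records of `S_n(x)`
satisfies a linear recurrence with constant integer coefficients from some point on. -/
theorem result (x : ℝ) (hirr : Irrational x)
    (hquad : ∃ a b c : ℤ, a ≠ 0 ∧ (a : ℝ) * x ^ 2 + (b : ℝ) * x + (c : ℝ) = 0) :
    ∃ R : ℕ → ℕ, StrictMono R ∧ Set.range R = {r : ℕ | IsRecord x r} ∧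
      ∃ L : ℕ, 0 < L ∧ ∃ (t : ℤ) (n0 : ℕ), ∀ n : ℕ, n0 ≤ n →
        (R (n + 3 * L) : ℤ) - t * R (n + 2 * L) + t * R (n + L) - R n = 0 := by
  obtain ⟨a, b, c, ha, hq⟩ := hquad
  have h1 : Irrational (x / 2) := by
    simpa using hirr.div_natCast (show (2 : ℕ) ≠ 0 by norm_num)
  have h2 : 2 * (x / 2) = x := by ring
  have h3 := finite_cq h1 (4 * a) (2 * b) c (by omega) (by push_cast; linear_combination hq)
  have h4 := infinite_records h1
  have h5 := recurrence h1 h3
  rw [h2] at h4 h5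
  exact ⟨Nat.nth (IsRecord x), Nat.nth_strictMono h4, Nat.range_nth_of_infinite h4, h5⟩

end Pool.Agent.Lib.MP_425be5_nt_XR.Recurrence
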